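import Pool.Agent.H32.IntC

set_option autoImplicit false

open Pool.Agent.H32.Int in
theorem Pool.Agent.Results.MP_76bd4c_lc.NotDecomp.result :
    (∀ f g : ℕ →. ℕ, TuringReducible f g ↔ ∃ c : OC, c.eval g = f) ∧
    ∃ A : Set ℕ, Introreducible A ∧
      ¬ ∃ (n : ℕ) (B : Fin (n + 1) → Set ℕ), A = ⋃ i, B i ∧ ∀ i, UiT A (B i) := by
  obtain ⟨A, h1, -, h2, -⟩ := main
  exact ⟨red_iff, A, h1, h2⟩
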